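import Pool.Agent.TH823.MRS.Circ5

/-!
# Chowla's conjecture for the Moebius function for almost all shifts from sparse families of bounded length

The shifts lie in `[-H, H]`, where `H` is only assumed to be larger than a constant depending on `ε`: the
sparse version (polynomial values, primes, families of small additive energy) of the averaged Chowla
conjecture of Matomaki, Radziwill and Tao.

The mean values of multiplicative functions in short intervals and arithmetic progressions, the exponential sum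
bounds of Davenport, the moments of Weyl sums and the restriction estimate for the primes are from the starting files
(`Pool.Agent.H376R2`, `Pool.Agent.H970R2`, `Pool.Agent.H807R2`, `Pool.Agent.H373R2`, `Pool.Agent.Helper602`).
From Mathlib: `Polynomial ℤ`: the polynomials with integer coefficients; `f.eval m`: the value at `m`;
`Nat.primeCounting H`: the number of primes up to `H`.
-/

set_option autoImplicit false

namespace Pool.Agent.Results.MP_c59857_nt.SparseAverages

open Finset

/-- The Moebius function on the integers, `0` at the integers `m ≤ 0`, with complex values. -/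
noncomputable def mu (m : ℤ) : ℂ := if 1 ≤ m then ((ArithmeticFunction.moebius m.toNat : ℤ) : ℂ) else 0

/-- The additive energy of order `p` of the family `s 1, ..., s x`: the number of the solutions of
`s (v 1) + ... + s (v p) = s (w 1) + ... + s (w p)` with all `v i`, `w i` in `{1, ..., x}`. -/
def energy (p x : ℕ) (s : ℕ → ℤ) : ℕ :=
  (((Fintype.piFinset fun _ : Fin p => Icc 1 x) ×ˢ (Fintype.piFinset fun _ : Fin p => Icc 1 x)).filter
    (fun q => ∑ i, s (q.1 i) = ∑ i, s (q.2 i))).card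

open Classical in
/-- The number of the elements of the finite set `I` with the property `E`. -/
noncomputable def num (I : Finset ℕ) (E : ℕ → Prop) : ℝ := ((I.filter E).card : ℝ)

/-- The shift `s` is good for the linear forms `a l * n + b l` and the functions `g l`: for all `l` and all
lengths `X ≤ B N / a l`, `|∑ n ≤ X, g l n * μ (a l * n + b l + s)| ≤ ε N`. -/
def Good (B N : ℕ) (ε : ℝ) {L : ℕ} (a : Fin L → ℕ) (b : Fin L → ℤ) (g : Fin L → ℕ → ℂ) (s : ℤ) : Prop :=
  ∀ l, ∀ X : ℕ, a l * X ≤ B * N → ‖∑ n ∈ Icc 1 X, g l n * mu (a l * n + b l + s)‖ ≤ ε * N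

/-- Let `ε > 0`, `B` and `L` be fixed. Let `H₀` and `N₀` be sufficiently large and let `H₀ ≤ H ≤ N` and
`N₀ ≤ N`. Let `g l : ℕ → ℂ`, `l < L`, be arbitrary functions bounded by `1` (for example products
`∏ i, μ (c i n + d i) ^ e i` with arbitrary coefficients and exponents), and let `a l ≥ 1` and `b l ≤ B N` be arbitrary integers.

* Let `s 1, ..., s x` be an arbitrary family of integers in `[-H, H]` whose additive energy of some fixed
  order `p` is at most `C` times the minimal possible size `x ^ (2 p) / H`. Then all the shifts `s m`, `m ≤ x`, with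
  at most `ε x` exceptions, are good: `|∑ n ≤ X, g l n * μ (a l * n + b l + s m)| ≤ ε N` for all `l` and
  all `X ≤ B N / a l`.
* In particular this holds for the shifts `f m`, `m ≤ x`, where `f` is a fixed nonconstant polynomial with
  integer coefficients, of degree `d`, and `H / K ≤ x ^ d ≤ K H`.
* It also holds for the shifts by the primes `q ≤ H`, with at most `ε π(H)` exceptions. -/
theorem result (B L : ℕ) (ε : ℝ) (hε : 0 < ε) :
    (∀ (p : ℕ) (C : ℝ), ∃ H₀ N₀ : ℕ, ∀ N H : ℕ, N₀ ≤ N → H₀ ≤ H → H ≤ N →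
      ∀ (x : ℕ) (s : ℕ → ℤ), (∀ m ∈ Icc 1 x, |s m| ≤ H) → (energy p x s : ℝ) * H ≤ C * (x : ℝ) ^ (2 * p) →
      ∀ (a : Fin L → ℕ) (b : Fin L → ℤ) (g : Fin L → ℕ → ℂ),
        (∀ l, 1 ≤ a l) → (∀ l, b l ≤ B * N) → (∀ l n, ‖g l n‖ ≤ 1) →
        num (Icc 1 x) (fun m => ¬ Good B N ε a b g (s m)) ≤ ε * x) ∧
    (∀ f : Polynomial ℤ, 1 ≤ f.natDegree → ∀ K : ℕ, ∃ H₀ N₀ : ℕ, ∀ N H : ℕ, N₀ ≤ N → H₀ ≤ H → H ≤ N →
      ∀ x : ℕ, x ^ f.natDegree ≤ K * H → H ≤ K * x ^ f.natDegree →
      ∀ (a : Fin L → ℕ) (b : Fin L → ℤ) (g : Fin L → ℕ → ℂ),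
        (∀ l, 1 ≤ a l) → (∀ l, b l ≤ B * N) → (∀ l n, ‖g l n‖ ≤ 1) →
        num (Icc 1 x) (fun m => ¬ Good B N ε a b g (f.eval (m : ℤ))) ≤ ε * x) ∧
    (∃ H₀ N₀ : ℕ, ∀ N H : ℕ, N₀ ≤ N → H₀ ≤ H → H ≤ N →
      ∀ (a : Fin L → ℕ) (b : Fin L → ℤ) (g : Fin L → ℕ → ℂ),
        (∀ l, 1 ≤ a l) → (∀ l, b l ≤ B * N) → (∀ l n, ‖g l n‖ ≤ 1) →
        num ((Icc 1 H).filter Nat.Prime) (fun q => ¬ Good B N ε a b g (q : ℤ)) ≤ ε * Nat.primeCounting H) := by
  refine ⟨fun p C => ?_, fun f hd K => ?_, ?_⟩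
  · exact Pool.Agent.TH823.MRS.gen (fun n => ((ArithmeticFunction.moebius n : ℤ) : ℂ)) Pool.Agent.TH823.MRS.mu_le
      Pool.Agent.TH823.MRS.mu_E B L ε hε p C
  · exact Pool.Agent.TH823.MRS.pol (fun n => ((ArithmeticFunction.moebius n : ℤ) : ℂ)) Pool.Agent.TH823.MRS.mu_le
      Pool.Agent.TH823.MRS.mu_E B L ε hε f hd K
  · exact Pool.Agent.TH823.MRS.pri (fun n => ((ArithmeticFunction.moebius n : ℤ) : ℂ)) Pool.Agent.TH823.MRS.mu_le
      Pool.Agent.TH823.MRS.mu_E B L ε hε

end Pool.Agent.Results.MP_c59857_nt.SparseAverages
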